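import Pool.Agent.Y114.RM.Stm

/-!
# Regular monodromy: a semisimple element which commutes with a regular nilpotent one is central
-/

set_option autoImplicit false

universe u v

namespace Pool.Agent.Y872.RM

open Module Polynomial Pool.Agent.TH118.SG Pool.Agent.Y114.RM

section defs

variable {K : Type u} [Field K] {V : Type v} [AddCommGroup V] [Module K V]

/-- the adjoint action on `L` -/
noncomputable def ra {L : Submodule K (End K V)} (hL : IsLie L) (X : End K V) (hX : X ∈ L) :
    End K L := (adE X).restrict (hL.adE_mem hX)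

theorem ra_apply {L : Submodule K (End K V)} (hL : IsLie L) (X : End K V) (hX : X ∈ L) (Y : L) :
    ((ra hL X hX Y : L) : End K V) = X * Y - Y * X := rfl

theorem ra_comm {L : Submodule K (End K V)} (hL : IsLie L) (X Y Z : End K V) (hX : X ∈ L)
    (hY : Y ∈ L) (hZ : Z ∈ L) (h : X * Y - Y * X = Z) :
    ra hL X hX * ra hL Y hY - ra hL Y hY * ra hL X hX = ra hL Z hZ := by
  refine LinearMap.ext fun W => Subtype.ext ?_
  simp only [LinearMap.sub_apply, Module.End.mul_apply, AddSubgroupClass.coe_sub, ra_apply]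
  rw [← h]
  noncomm_ring

theorem nil_adE (X : End K V) (h : IsNilpotent X) : IsNilpotent (adE X) := by
  have h1 : Commute (LinearMap.mulLeft K X) (LinearMap.mulRight K X) :=
    LinearMap.commute_mulLeft_right (R := K) X X
  exact Commute.isNilpotent_sub h1 ((LinearMap.isNilpotent_mulLeft_iff K X).2 h)
    ((LinearMap.isNilpotent_mulRight_iff K X).2 h)

theorem nil_ra {L : Submodule K (End K V)} (hL : IsLie L) (X : End K V) (hX : X ∈ L)
    (h : IsNilpotent X) : IsNilpotent (ra hL X hX) := by
  obtain ⟨n, hn⟩ := nil_adE X h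
  have key : ∀ (m : ℕ) (Y : L), (((ra hL X hX) ^ m) Y : End K V) = ((adE X) ^ m) Y := by
    intro m
    induction m with
    | zero => intro Y; rfl
    | succ m ih =>
      intro Y
      rw [pow_succ, pow_succ, Module.End.mul_apply, Module.End.mul_apply, ih]
      rfl
  refine ⟨n, LinearMap.ext fun Y => Subtype.ext ?_⟩
  rw [key, hn]
  rfl

/-- `ker (A ^ k) = ker A` -/
theorem ker_pow {M : Type v} [AddCommGroup M] [Module K M] (A : End K M)
    (h : ∀ x, A (A x) = 0 → A x = 0) : ∀ (k : ℕ) (x : M), (A ^ k) x = 0 → A x = 0 := by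
  intro k
  induction k with
  | zero =>
    intro x hx
    have : x = 0 := by simpa using hx
    rw [this, map_zero]
  | succ k ih =>
    intro x hx
    rw [pow_succ, Module.End.mul_apply] at hx
    exact h x (ih (A x) hx)

theorem ker_both {M : Type v} [AddCommGroup M] [Module K M] (A B : End K M)
    (h : ∀ x, A (A x) = 0 → A x = 0) (hAB : A * B = B * A) (hB : IsNilpotent B) (y : M)
    (hy : A y + B y = 0) : A y = 0 := by
  obtain ⟨n, hn⟩ := hB
  have h1 : A y = (-B) y := by
    rw [LinearMap.neg_apply]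
    exact eq_neg_of_add_eq_zero_left hy
  have hc : Commute A (-B) := by
    show A * (-B) = -B * A
    rw [mul_neg, neg_mul, hAB]
  have key : ∀ k : ℕ, (A ^ k) y = ((-B) ^ k) y := by
    intro k
    induction k with
    | zero => rfl
    | succ k ih =>
      rw [pow_succ', Module.End.mul_apply, ih, ← Module.End.mul_apply,
        (hc.pow_right k).eq, Module.End.mul_apply, h1, ← Module.End.mul_apply, ← pow_succ]
  apply ker_pow A h n y
  rw [key, neg_pow, hn, mul_zero, LinearMap.zero_apply]

end defs

/-- CENT -/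
theorem cent (hjm : S_JM2.{u, v}) (hgen : S_GEN.{u, v}) : S_CENT.{u, v} := by
  intro K _ _ V _ _ _ L hL hnd r hr N hN hNn hNr s hs hsN hss
  have hA : ∀ x : L, ra hL s hs (ra hL s hs x) = 0 → ra hL s hs x = 0 := by
    intro x hx
    apply Subtype.ext
    exact hss x x.2 (congrArg Subtype.val hx)
  have hAB : ra hL s hs * ra hL N hN = ra hL N hN * ra hL s hs := by
    have h1 := ra_comm hL s N 0 hs hN L.zero_mem (by rw [hsN, sub_self])
    have h2 : ra hL 0 L.zero_mem = 0 := by
      refine LinearMap.ext fun W => Subtype.ext ?_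
      rw [ra_apply]
      simp
    rw [h2] at h1
    exact sub_eq_zero.1 h1
  -- the centralizer of `N` commutes with `s`
  have h1 : ∀ y, y ∈ cen L (N + s) → s * y = y * s := by
    intro y hy
    rw [mem_cen] at hy
    have h2 : ra hL s hs ⟨y, hy.1⟩ = 0 := by
      apply ker_both (ra hL s hs) (ra hL N hN) hA hAB (nil_ra hL N hN hNn)
      apply Subtype.ext
      rw [Submodule.coe_add, ra_apply, ra_apply]
      show s * y - y * s + (N * y - y * N) = 0
      have h3 := hy.2
      rw [add_mul, mul_add] at h3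
      rw [← sub_eq_zero] at h3
      rw [← h3]
      abel
    have h3 := congrArg Subtype.val h2
    rw [ra_apply] at h3
    exact sub_eq_zero.1 h3
  have h2 : cen L (N + s) ≤ cen L N := by
    intro y hy
    have h3 := h1 y hy
    rw [mem_cen] at hy ⊢
    refine ⟨hy.1, ?_⟩
    have h4 := hy.2
    rw [add_mul, mul_add, h3] at h4
    exact add_right_cancel h4
  have h3 : cen L (N + s) = cen L N :=
    Submodule.eq_of_le_of_finrank_le h2 (hNr.trans (hr _ (L.add_mem hN hs)))
  have h4 : cen L N ≤ cen L s := by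
    intro y hy
    rw [← h3] at hy
    exact ⟨(h2 hy).1, h1 y hy⟩
  -- `m = cen L s`
  have hm : IsLie (cen L s) := by
    rintro X ⟨hX, hX'⟩ Y ⟨hY, hY'⟩
    refine ⟨hL X hX Y hY, ?_⟩
    calc s * (X * Y - Y * X) = (s * X) * Y - (s * Y) * X := by noncomm_ring
      _ = (X * s) * Y - (Y * s) * X := by rw [hX', hY']
      _ = X * (s * Y) - Y * (s * X) := by noncomm_ring
      _ = X * (Y * s) - Y * (X * s) := by rw [hX', hY']
      _ = (X * Y - Y * X) * s := by noncomm_ring
  have htop : LinearMap.ker (ra hL s hs) ⊔ LinearMap.range (ra hL s hs) = ⊤ := by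
    apply Submodule.eq_top_of_disjoint
    · rw [add_comm]
      exact (LinearMap.finrank_range_add_finrank_ker _).ge
    · rw [Submodule.disjoint_def]
      rintro x hx ⟨y, rfl⟩
      exact hA y hx
  have hmn : NonDeg (cen L s) := by
    rintro X ⟨hX, hX'⟩ hXt
    apply hnd X hX
    intro Z hZ
    have h5 : (⟨Z, hZ⟩ : L) ∈ LinearMap.ker (ra hL s hs) ⊔ LinearMap.range (ra hL s hs) := by
      rw [htop]
      exact Submodule.mem_top
    obtain ⟨y, hy, z, ⟨x, rfl⟩, h6⟩ := Submodule.mem_sup.1 h5
    have h7 : Z = (y : End K V) + (s * x - x * s) := by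
      have h8 := congrArg Subtype.val h6
      rw [Submodule.coe_add, ra_apply] at h8
      exact h8.symm
    have h8 : (y : End K V) ∈ cen L s := by
      refine ⟨y.2, ?_⟩
      have h9 := congrArg Subtype.val (LinearMap.mem_ker.1 hy)
      rw [ra_apply] at h9
      exact sub_eq_zero.1 h9
    rw [h7, mul_add, map_add, hXt _ h8, zero_add, mul_sub, map_sub, ← mul_assoc, ← mul_assoc,
      LinearMap.trace_mul_comm K (X * (x : End K V)) s, ← mul_assoc, hX', sub_self]
  obtain ⟨H, hH, f, hf, e1, e2, e3⟩ := hjm K V (cen L s) hm hmn N ⟨hN, hsN⟩ hNn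
  have hHL : H ∈ L := hH.1
  have hfL : f ∈ L := hf.1
  have h5 := hgen K L (ra hL N hN) (ra hL f hfL) (ra hL H hHL)
    (ra_comm hL N f H hN hfL hHL e2)
    (by
      have := ra_comm hL H N (2 • N) hHL hN (nsmul_mem hN 2) e1
      rw [this]
      refine LinearMap.ext fun W => Subtype.ext ?_
      simp only [two_nsmul, LinearMap.add_apply, Submodule.coe_add, ra_apply]
      noncomm_ring)
    (by
      have := ra_comm hL H f (-(2 • f)) hHL hfL (L.neg_mem (nsmul_mem hfL 2)) e3
      rw [this]
      refine LinearMap.ext fun W => Subtype.ext ?_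
      simp only [two_nsmul, LinearMap.neg_apply, LinearMap.add_apply, ra_apply, Submodule.coe_add,
        NegMemClass.coe_neg]
      noncomm_ring)
    (nil_ra hL N hN hNn) ((cen L s).comap L.subtype)
    (fun x hx => hm f hf x hx) (fun x hx => hm H hH x hx)
    (fun x hx => h4 ⟨x.2, by
      have h9 := congrArg Subtype.val (LinearMap.mem_ker.1 hx)
      rw [ra_apply] at h9
      exact sub_eq_zero.1 h9⟩)
  intro X hX
  have h6 : (⟨X, hX⟩ : L) ∈ (cen L s).comap L.subtype := by
    rw [h5]
    exact Submodule.mem_top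
  exact h6.2

end Pool.Agent.Y872.RM
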